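import Pool.Agent.H5.FR2.Stmts

set_option autoImplicit false

namespace Pool.Agent.H5.FR2

open Finset Pool.Agent.H5.FR Pool.Agent.H80

namespace Wck29

/-- the moments of the eight point distribution -/
noncomputable def mom (p q : ℕ) : ℂ := ∑ k : Fin 8, zz k ^ p * (star (zz k)) ^ q

theorem sq2 : ((√2 : ℝ) : ℂ) * ((√2 : ℝ) : ℂ) = 2 := by
  rw [← Complex.ofReal_mul, Real.mul_self_sqrt (by norm_num)]; norm_num

theorem zz0 : zz 0 = 0 := by simp [zz]
theorem zz1 : zz 1 = 0 := by simp [zz]
theorem zz2 : zz 2 = 0 := by simp [zz]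
theorem zz3 : zz 3 = 0 := by simp [zz]
theorem zz4 : zz 4 = ((√2 : ℝ) : ℂ) := by
  simp [zz, Complex.I_pow_four]
theorem zz5 : zz 5 = ((√2 : ℝ) : ℂ) * Complex.I := by
  have h2 : Complex.I ^ 5 = Complex.I := by
    rw [pow_succ, Complex.I_pow_four, one_mul]
  simp [zz, h2]
theorem zz6 : zz 6 = -((√2 : ℝ) : ℂ) := by
  have h2 : Complex.I ^ 6 = -1 := by
    rw [show (6 : ℕ) = 4 + 2 from rfl, pow_add, Complex.I_pow_four, one_mul, Complex.I_sq]
  simp [zz, h2]
theorem zz7 : zz 7 = -(((√2 : ℝ) : ℂ) * Complex.I) := by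
  have h2 : Complex.I ^ 7 = -Complex.I := by
    rw [show (7 : ℕ) = 4 + 3 from rfl, pow_add, Complex.I_pow_four, one_mul, Complex.I_pow_three]
  simp [zz, h2]

theorem mom_eq (p q : ℕ) : mom p q = 4 * (0 ^ p * 0 ^ q) +
    (((√2 : ℝ) : ℂ) ^ p * ((√2 : ℝ) : ℂ) ^ q) * (1 + Complex.I ^ p * (-Complex.I) ^ q +
      (-1) ^ p * (-1) ^ q + (-Complex.I) ^ p * Complex.I ^ q) := by
  unfold mom
  rw [Fin.sum_univ_eight, zz0, zz1, zz2, zz3, zz4, zz5, zz6, zz7]
  simp only [star_zero, Complex.star_def, map_neg, map_mul, Complex.conj_ofReal, Complex.conj_I,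
    mul_pow, mul_neg]
  have e1 : (-(((√2 : ℝ) : ℂ) * Complex.I)) ^ p =
      ((√2 : ℝ) : ℂ) ^ p * (-Complex.I) ^ p := by rw [← mul_pow]; ring_nf
  have e2 : (-(((√2 : ℝ) : ℂ) * Complex.I)) ^ q =
      ((√2 : ℝ) : ℂ) ^ q * (-Complex.I) ^ q := by rw [← mul_pow]; ring_nf
  have e3 : (-((√2 : ℝ) : ℂ)) ^ p = ((√2 : ℝ) : ℂ) ^ p * (-1) ^ p := by
    rw [← mul_pow]; ring_nf
  have e4 : (-((√2 : ℝ) : ℂ)) ^ q = ((√2 : ℝ) : ℂ) ^ q * (-1) ^ q := by
    rw [← mul_pow]; ring_nf
  simp only [neg_neg, mul_pow, e1, e2, e3, e4]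
  ring

theorem m00 : mom 0 0 = 8 := by rw [mom_eq]; norm_num
theorem m11 : mom 1 1 = 8 := by
  rw [mom_eq]
  simp only [pow_one, sq2]
  linear_combination (-4 : ℂ) * Complex.I_mul_I
theorem m22 : mom 2 2 = 16 := by
  rw [mom_eq]
  simp only [pow_two, sq2]
  have := Complex.I_mul_I
  simp only [neg_mul_neg, this]
  ring
theorem m10 : mom 1 0 = 0 := by rw [mom_eq]; simp
theorem m20 : mom 2 0 = 0 := by rw [mom_eq]; simp
theorem m21 : mom 2 1 = 0 := by rw [mom_eq]; simp
theorem m12 : mom 1 2 = 0 := by rw [mom_eq]; simp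
theorem m01 : mom 0 1 = 0 := by rw [mom_eq]; simp
theorem m02 : mom 0 2 = 0 := by rw [mom_eq]; simp

theorem key {I : Type} [Fintype I] [DecidableEq I] (m n : I → ℕ) :
    ∑ G : I → Fin 8, (∏ i, zz (G i) ^ m i) * (∏ i, (star (zz (G i))) ^ n i) =
      ∏ i, mom (m i) (n i) := by
  unfold mom
  rw [Finset.prod_univ_sum]
  simp only [Fintype.piFinset_univ, Finset.prod_mul_distrib]

theorem pr1 {I : Type} [Fintype I] [DecidableEq I] (f : I → ℂ) (a : I) :
    ∏ i, f i ^ (if i = a then 1 else 0) = f a := by
  rw [Finset.prod_eq_single a]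
  · simp
  · intro b _ hb; simp [hb]
  · simp

theorem fac {I : Type} [Fintype I] [DecidableEq I] (m n : I → ℕ) (h : ∀ i, mom (m i) (n i) = 8) :
    ∏ i, mom (m i) (n i) = (8 : ℂ) ^ (Fintype.card I) := by
  rw [Finset.prod_congr rfl (fun i _ => h i)]
  simp

theorem fac2 {I : Type} [Fintype I] [DecidableEq I] (m n : I → ℕ) (a : I)
    (h : ∀ i, i ≠ a → mom (m i) (n i) = 8) (h2 : mom (m a) (n a) = 16) :
    ∏ i, mom (m i) (n i) = 2 * (8 : ℂ) ^ (Fintype.card I) := by
  rw [← Finset.mul_prod_erase _ _ (Finset.mem_univ a), h2,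
    Finset.prod_congr rfl (fun i hi => h i (Finset.ne_of_mem_erase hi))]
  rw [Finset.prod_const, Finset.card_erase_of_mem (Finset.mem_univ a), Finset.card_univ]
  have hc : 1 ≤ Fintype.card I := Fintype.card_pos_iff.2 ⟨a⟩
  obtain ⟨k, hk⟩ : ∃ k, Fintype.card I = k + 1 := ⟨Fintype.card I - 1, by omega⟩
  rw [hk, Nat.add_sub_cancel, pow_succ]; ring

end Wck29

open Wck29

theorem wck_thm : WCKStmt := by
  intro I _ _
  refine ⟨fun a b => ?_, fun a b c e => ?_⟩
  · have h1 : ∀ G : I → Fin 8, ∏ i, zz (G i) ^ (if i = a then 1 else 0) = zz (G a) :=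
      fun G => pr1 (fun i => zz (G i)) a
    have h2 : ∀ G : I → Fin 8, ∏ i, (star (zz (G i))) ^ (if i = b then 1 else 0) =
      star (zz (G b)) := fun G => pr1 (fun i => star (zz (G i))) b
    have h := key (I := I) (fun i => if i = a then 1 else 0) (fun i => if i = b then 1 else 0)
    simp only [h1, h2] at h
    rw [h]
    by_cases hab : a = b
    · subst hab
      rw [if_pos rfl, mul_one]
      apply fac
      intro i
      by_cases hi : i = a
      · simp [hi, m11]
      · simp [hi, m00]
    · rw [if_neg hab, mul_zero]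
      apply Finset.prod_eq_zero (Finset.mem_univ a)
      simp [hab, m10]
  · have h1 : ∀ G : I → Fin 8, ∏ i, zz (G i) ^ ((if i = a then 1 else 0) +
        (if i = c then 1 else 0)) = zz (G a) * zz (G c) := by
      intro G
      simp only [pow_add, Finset.prod_mul_distrib]
      rw [pr1 (fun i => zz (G i)) a, pr1 (fun i => zz (G i)) c]
    have h2 : ∀ G : I → Fin 8, ∏ i, (star (zz (G i))) ^ ((if i = b then 1 else 0) +
        (if i = e then 1 else 0)) = star (zz (G b)) * star (zz (G e)) := by
      intro G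
      simp only [pow_add, Finset.prod_mul_distrib]
      rw [pr1 (fun i => star (zz (G i))) b, pr1 (fun i => star (zz (G i))) e]
    have h := key (I := I) (fun i => (if i = a then 1 else 0) + (if i = c then 1 else 0))
      (fun i => (if i = b then 1 else 0) + (if i = e then 1 else 0))
    simp only [h1, h2] at h
    have h3 : ∑ G : I → Fin 8, zz (G a) * star (zz (G b)) * zz (G c) * star (zz (G e)) =
        ∑ G : I → Fin 8, zz (G a) * zz (G c) * (star (zz (G b)) * star (zz (G e))) :=
      Finset.sum_congr rfl (fun G _ => by ring)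
    rw [h3, h]
    by_cases hac : a = c
    · subst hac
      by_cases hab : a = b
      · subst hab
        by_cases hae : a = e
        · subst hae
          rw [fac2 _ _ a]
          · simp; ring
          · intro i hi; simp [hi, m00]
          · simp [m22]
        · rw [if_neg (by tauto), if_neg (by tauto)]
          simp only [add_zero, mul_zero]
          apply Finset.prod_eq_zero (Finset.mem_univ a)
          simp [hae, m21]
      · rw [if_neg (by tauto), if_neg (by tauto)]
        simp only [add_zero, mul_zero]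
        apply Finset.prod_eq_zero (Finset.mem_univ a)
        by_cases hae : a = e
        · subst hae; simp [hab, m21]
        · simp [hab, hae, m20]
    · by_cases hab : a = b
      · subst hab
        by_cases hce : c = e
        · subst hce
          rw [if_pos ⟨rfl, rfl⟩, if_neg (by tauto), add_zero, mul_one]
          apply fac
          intro i
          by_cases hi : i = a
          · subst hi; simp [hac, m11]
          · by_cases hi2 : i = c
            · subst hi2; simp [hi, m11]
            · simp [hi, hi2, m00]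
        · rw [if_neg (by tauto), if_neg (by rintro ⟨h1, h2⟩; exact hac h2.symm)]
          simp only [add_zero, mul_zero]
          apply Finset.prod_eq_zero (Finset.mem_univ c)
          have : ¬ c = a := fun h => hac h.symm
          simp [this, hce, m10]
      · by_cases hae : a = e
        · subst hae
          by_cases hcb : c = b
          · subst hcb
            rw [if_neg (by tauto), if_pos ⟨rfl, rfl⟩, zero_add, mul_one]
            apply fac
            intro i
            by_cases hi : i = a
            · subst hi; simp [hac, m11]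
            · by_cases hi2 : i = c
              · subst hi2; simp [hi, m11]
              · simp [hi, hi2, m00]
          · rw [if_neg (by tauto), if_neg (by tauto)]
            simp only [add_zero, mul_zero]
            apply Finset.prod_eq_zero (Finset.mem_univ c)
            have : ¬ c = a := fun h => hac h.symm
            simp [this, hcb, m10]
        · rw [if_neg (by tauto), if_neg (by tauto)]
          simp only [add_zero, mul_zero]
          apply Finset.prod_eq_zero (Finset.mem_univ a)
          simp [hab, hae, hac, m10]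

end Pool.Agent.H5.FR2
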